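import Pool.Agent.H891.KS.Val2
import Pool.Graph.R_pool_sql_team_ae5b0c61.H27.Shearer

/-! The covering inequality for the dimensions of a space of functions over the subfields which are
generated by parts of a transcendence basis. -/

set_option autoImplicit false

open MvPolynomial

namespace Pool.Agent.H891.KS

section

variable {k K Γ : Type*} [Field k] [Field K] [Algebra k K] [LinearOrderedCommGroupWithZero Γ]
  {n : ℕ}

/-- the value of `z` is the value of the monomial with the rational exponent `c` -/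
def HasExp (v : Valuation K Γ) (y : Fin n → K) (z : K) (c : Fin n → ℚ) : Prop :=
  ∃ N : ℕ, 0 < N ∧ ∃ β : Fin n → ℤ, v z ^ N = v (lmon y β) ∧ ∀ i, c i * N = β i

variable {v : Valuation K Γ} {y : Fin n → K}

theorem HasExp.mul (hy0 : ∀ i, y i ≠ 0) {z z' : K} {c c' : Fin n → ℚ} (h : HasExp v y z c)
    (h' : HasExp v y z' c') : HasExp v y (z * z') (c + c') := by
  obtain ⟨N, hN, β, h1, h2⟩ := h
  obtain ⟨N', hN', β', h1', h2'⟩ := h'
  refine ⟨N * N', Nat.mul_pos hN hN', N' • β + N • β', ?_, fun i => ?_⟩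
  · rw [lmon_add hy0, lmon_nsmul hy0, lmon_nsmul hy0, map_mul, map_mul, map_pow, map_pow, ← h1,
      ← h1', mul_pow, pow_mul, mul_comm N N', pow_mul (v z')]
  · show (c i + c' i) * ((N * N' : ℕ) : ℚ) = ((N' • β i + N • β' i : ℤ) : ℚ)
    rw [nsmul_eq_mul, nsmul_eq_mul]
    push_cast
    rw [← h2 i, ← h2' i]
    ring

theorem HasExp.unique (hy0 : ∀ i, y i ≠ 0)
    (hv : ∀ α : Fin n → ℤ, α ≠ 0 → v (lmon y α) ≠ 1) {z z' : K} {c c' : Fin n → ℚ}
    (h : HasExp v y z c) (h' : HasExp v y z' c') (hz : v z = v z') : c = c' := by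
  obtain ⟨N, hN, β, h1, h2⟩ := h
  obtain ⟨N', hN', β', h1', h2'⟩ := h'
  have h3 : N' • β = N • β' := by
    apply lmon_inj hy0 hv
    rw [lmon_nsmul hy0, lmon_nsmul hy0, map_pow, map_pow, ← h1, ← h1', hz, ← pow_mul, ← pow_mul,
      mul_comm]
  funext i
  have h4 : N' • β i = N • β' i := congrFun h3 i
  rw [nsmul_eq_mul, nsmul_eq_mul] at h4
  have h5 : (N' : ℚ) * β i = N * β' i := by exact_mod_cast h4
  rw [← h2 i, ← h2' i] at h5
  have hNq : (N : ℚ) ≠ 0 := by exact_mod_cast hN.ne'
  have hNq' : (N' : ℚ) ≠ 0 := by exact_mod_cast hN'.ne'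
  have h6 : (N' : ℚ) * N * c i = N' * N * c' i := by linarith
  exact mul_left_cancel₀ (mul_ne_zero hNq' hNq) h6

theorem HasExp.val_eq (hy0 : ∀ i, y i ≠ 0) {z z' : K} {c : Fin n → ℚ}
    (h : HasExp v y z c) (h' : HasExp v y z' c) : v z = v z' := by
  obtain ⟨N, hN, β, h1, h2⟩ := h
  obtain ⟨N', hN', β', h1', h2'⟩ := h'
  have h3 : N' • β = N • β' := by
    funext i
    have h5 : (N' : ℚ) * β i = N * β' i := by
      rw [← h2 i, ← h2' i]
      ring
    show N' • β i = N • β' i
    rw [nsmul_eq_mul, nsmul_eq_mul]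
    exact_mod_cast h5
  have h4 : v z ^ (N * N') = v z' ^ (N * N') := by
    rw [pow_mul, h1, mul_comm N N', pow_mul, h1', ← map_pow, ← map_pow, ← lmon_nsmul hy0,
      ← lmon_nsmul hy0, h3]
  exact (pow_left_inj₀ zero_le zero_le (Nat.mul_pos hN hN').ne').1 h4

theorem alg_exp (hy : AlgebraicIndependent k y)
    (hk : ∀ c : k, c ≠ 0 → v (algebraMap k K c) = 1)
    (hv : ∀ α : Fin n → ℤ, α ≠ 0 → v (lmon y α) ≠ 1) {J : Set (Fin n)} {z : K}
    (hz : IsAlgebraic (Algebra.adjoin k (y '' J)) z) (hz0 : z ≠ 0) :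
    ∃ c : Fin n → ℚ, HasExp v y z c ∧ ∀ i ∉ J, c i = 0 := by
  obtain ⟨N, hN, β, hβ, h⟩ := alg_val hy hk hv hz hz0
  have hNq : (N : ℚ) ≠ 0 := by exact_mod_cast hN.ne'
  exact ⟨fun i => β i / N, ⟨N, hN, β, h, fun i => div_mul_cancel₀ _ hNq⟩,
    fun i hi => by simp [hβ i hi]⟩

end

section

variable {k K : Type*} [Field k] [Field K] [Algebra k K] {n : ℕ}

theorem card_inst {ι : Type*} [Fintype ι] {p : ι → Prop} (i1 i2 : DecidablePred p) :
    (@Finset.filter ι p i1 Finset.univ).card = (@Finset.filter ι p i2 Finset.univ).card := by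
  have h : i1 = i2 := Subsingleton.elim _ _
  rw [h]

theorem card_image_inst {α β : Type*} {s : Finset α} {f : α → β} (i1 i2 : DecidableEq β) :
    (@Finset.image α β i1 f s).card = (@Finset.image α β i2 f s).card := by
  have h : i1 = i2 := Subsingleton.elim _ _
  rw [h]

theorem span_top {y : Fin n → K} (hy : IsTranscendenceBasis k y) (z : K) :
    IsAlgebraic (Algebra.adjoin k (y '' Set.univ)) z := by
  rw [Set.image_univ]
  exact hy.isAlgebraic.isAlgebraic z

/-- **The covering inequality.** -/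
theorem count_prod [IsAlgClosed k] {y : Fin n → K} (hy : IsTranscendenceBasis k y)
    (W : Submodule k K) [FiniteDimensional k W] {r q : ℕ} (hq : 1 ≤ q)
    (I : Fin r → Finset (Fin n)) (hI : ∀ a, q ≤ (Finset.univ.filter fun j => a ∈ I j).card)
    (T : Fin r → IntermediateField k K)
    (hT : ∀ j, ∀ t ∈ T j, IsAlgebraic (Algebra.adjoin k (y '' {i | i ∉ I j})) t) :
    (Module.finrank k W) ^ q ≤
      ∏ j, Module.finrank (T j) (Submodule.span (T j) (W : Set K)) := by
  classical
  obtain ⟨O, hO1, hO2⟩ := exists_val hy.1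
  obtain ⟨v, hvO⟩ : ∃ v, v = O.valuation := ⟨_, rfl⟩
  rw [← hvO] at hO2
  have hy0 : ∀ i, y i ≠ 0 := fun i => hy.1.ne_zero i
  have hk : ∀ c : k, c ≠ 0 → v (algebraMap k K c) = 1 := by
    intro c hc
    have h1 : v (algebraMap k K c) ≤ 1 := by
      rw [hvO]; exact (O.valuation_le_one_iff _).2 (hO1 c)
    have h2 : v (algebraMap k K c⁻¹) ≤ 1 := by
      rw [hvO]; exact (O.valuation_le_one_iff _).2 (hO1 _)
    have h3 : v (algebraMap k K c) * v (algebraMap k K c⁻¹) = 1 := by
      rw [← map_mul, ← map_mul, mul_inv_cancel₀ hc, map_one, map_one]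
    refine le_antisymm h1 ?_
    rw [← h3]
    calc v (algebraMap k K c) * v (algebraMap k K c⁻¹) ≤ v (algebraMap k K c) * 1 :=
          mul_le_mul_right h2 _
      _ = _ := mul_one _
  obtain ⟨w, hwW, hw0, hinj⟩ := exists_distinct hy hk hO2 W _ le_rfl
  choose c hc _ using fun l => alg_exp (v := v) hy.1 hk hO2 (span_top hy (w l)) (hw0 l)
  have hcinj : Function.Injective c := by
    intro l l' h
    apply hinj
    exact (hc l).val_eq hy0 (h ▸ hc l')
  let S : Finset (Fin n → ℚ) := Finset.univ.image c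
  have hScard : S.card = Module.finrank k W := by
    rw [Finset.card_image_of_injective _ hcinj, Finset.card_univ, Fintype.card_fin]
  have hsh := Pool.Agent.H27.Shearer.shearer (ι := Fin n) (α := ℚ) (J := Fin r) 0 Finset.univ I q
    (Nat.lt_of_lt_of_le Nat.zero_lt_one hq) Finset.univ (fun i _ => (hI i).trans_eq (card_inst _ _)) S
    (fun x _ y _ h => funext fun i => h i (Finset.mem_univ i))
  have hj : ∀ j, (S.image (Pool.Agent.H27.Shearer.proj 0 (I j))).card ≤
      Module.finrank (T j) (Submodule.span (T j) (W : Set K)) := by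
    intro j
    -- representatives
    have hrep : ∀ b : ↥(S.image (Pool.Agent.H27.Shearer.proj 0 (I j))), ∃ l,
        Pool.Agent.H27.Shearer.proj 0 (I j) (c l) = b := by
      intro b
      obtain ⟨x, hx, hxb⟩ := Finset.mem_image.1 b.2
      obtain ⟨l, -, rfl⟩ := Finset.mem_image.1 hx
      exact ⟨l, hxb⟩
    choose ρ hρ using hrep
    have hfd : FiniteDimensional (T j) (Submodule.span (T j) (W : Set K)) := by
      obtain ⟨s, hs⟩ := (Submodule.fg_iff_finiteDimensional W).2 inferInstance
      have h1 : Submodule.span (T j) (W : Set K) = Submodule.span (T j) (s : Set K) := by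
        apply le_antisymm
        · rw [Submodule.span_le, ← hs]
          exact Submodule.span_subset_span k (T j) _
        · refine Submodule.span_mono ?_
          rw [← hs]
          exact Submodule.subset_span
      rw [h1]
      exact FiniteDimensional.span_of_finite _ s.finite_toSet
    have hlin : LinearIndependent (T j) fun b => w (ρ b) := by
      rw [linearIndependent_iff']
      intro s g hg b hb
      by_contra hgb
      let s' := s.filter fun b => g b ≠ 0
      have hs' : s'.Nonempty := ⟨b, Finset.mem_filter.2 ⟨hb, hgb⟩⟩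
      have hsum : ∑ b ∈ s', (g b : K) * w (ρ b) = 0 := by
        rw [← hg, Finset.sum_filter_of_ne]
        · exact Finset.sum_congr rfl fun b _ => rfl
        · intro b _ h h0
          apply h
          rw [h0]
          simp
      have hgne : ∀ b ∈ s', (g b : K) ≠ 0 := fun b hb h =>
        (Finset.mem_filter.1 hb).2 (Subtype.ext h)
      obtain ⟨a, ha, a', ha', haa, hval⟩ := two_equal v hs'
        (fun b hb => mul_ne_zero (hgne b hb) (hw0 _)) hsum
      obtain ⟨e, he, he0⟩ := alg_exp (v := v) hy.1 hk hO2 (hT j _ (g a).2) (hgne a ha)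
      obtain ⟨e', he', he0'⟩ := alg_exp (v := v) hy.1 hk hO2 (hT j _ (g a').2) (hgne a' ha')
      have h1 := (he.mul hy0 (hc (ρ a))).unique hy0 hO2 (he'.mul hy0 (hc (ρ a'))) hval
      apply haa
      apply Subtype.ext
      rw [← hρ a, ← hρ a']
      funext i
      unfold Pool.Agent.H27.Shearer.proj
      by_cases hi : i ∈ I j
      · rw [if_pos hi, if_pos hi]
        have h2 := congrFun h1 i
        rw [Pi.add_apply, Pi.add_apply, he0 i (fun h => h hi), he0' i (fun h => h hi), zero_add,
          zero_add] at h2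
        exact h2
      · rw [if_neg hi, if_neg hi]
    have hlin' : LinearIndependent (T j) fun b =>
        (⟨w (ρ b), Submodule.subset_span (hwW _)⟩ : Submodule.span (T j) (W : Set K)) := by
      apply LinearIndependent.of_comp (Submodule.subtype _)
      exact hlin
    have h2 := hlin'.fintype_card_le_finrank
    rwa [Fintype.card_coe] at h2
  rw [hScard] at hsh
  have h3 : ((Module.finrank k W : ℕ) : ℝ) ^ q ≤
      ∏ j, ((Module.finrank (T j) (Submodule.span (T j) (W : Set K)) : ℕ) : ℝ) := by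
    refine hsh.trans (Finset.prod_le_prod (fun _ _ => Nat.cast_nonneg _) fun j _ => ?_)
    exact Nat.cast_le.2 ((card_image_inst _ _).trans_le (hj j))
  exact_mod_cast h3

end

end Pool.Agent.H891.KS
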