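import Pool.Graph.R_seed8.Y174.VDefs
import Pool.Graph.R_seed8.Y174.BDefs

/-! The geometric generic fibres of the coordinate projections. -/

set_option autoImplicit false
set_option linter.overlappingInstances false
set_option linter.unusedSectionVars false

open FF IntermediateField Pool.Agent.W619.TW Pool.Agent.Y174

namespace Pool.Agent.H891.KS

section

variable (k : Type) {K : Type} [Field k] [Field K] [Algebra k K] {n : ℕ}

/-- The algebraic closure of the field `k(x i, i ∉ I)` in the algebraic closure of `K`. -/
noncomputable def Base (x : Fin n → K) (I : Finset (Fin n)) :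
    IntermediateField k (AlgebraicClosure K) :=
  (algebraicClosure (IntermediateField.adjoin k (x '' {i | i ∉ I}))
    (AlgebraicClosure K)).restrictScalars k

/-- The field of constants of the geometric generic fibre of the rational map with the components
`x i`, `i ∉ I`: the algebraic closure of `k(x i, i ∉ I)` in the algebraic closure of `K`. -/
def BaseField (x : Fin n → K) (I : Finset (Fin n)) : Type := Base k x I

noncomputable instance (x : Fin n → K) (I : Finset (Fin n)) : Field (BaseField k x I) :=
  (Base k x I).toField

noncomputable instance (x : Fin n → K) (I : Finset (Fin n)) :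
    Algebra (BaseField k x I) (AlgebraicClosure K) :=
  (Base k x I).toAlgebra

/-- The field generated by `BaseField k x I` and `K` in the algebraic closure of `K`. -/
noncomputable def Fib (x : Fin n → K) (I : Finset (Fin n)) :
    IntermediateField (BaseField k x I) (AlgebraicClosure K) :=
  IntermediateField.adjoin (BaseField k x I) (Set.range (algebraMap K (AlgebraicClosure K)))

/-- The function field of the geometric generic fibre of the rational map with the components
`x i`, `i ∉ I`, on the variety with function field `K`: it is generated by `BaseField k x I` and
`K`. -/
def FibField (x : Fin n → K) (I : Finset (Fin n)) : Type := Fib k x I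

noncomputable instance (x : Fin n → K) (I : Finset (Fin n)) : Field (FibField k x I) :=
  (Fib k x I).toField

noncomputable instance (x : Fin n → K) (I : Finset (Fin n)) :
    Algebra (BaseField k x I) (FibField k x I) :=
  (Fib k x I).algebra'

/-- The restriction of functions to the geometric generic fibre. -/
noncomputable def restrHom (x : Fin n → K) (I : Finset (Fin n)) : K →+* FibField k x I :=
  (algebraMap K (AlgebraicClosure K)).codRestrict (Fib k x I).toSubring fun a =>
    IntermediateField.subset_adjoin _ _ ⟨a, rfl⟩

noncomputable instance (x : Fin n → K) (I : Finset (Fin n)) : Algebra K (FibField k x I) :=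
  (restrHom k x I).toAlgebra

/-- An `ℝ`-divisor on the models of the geometric generic fibre, given by its multiplicities at the
divisorial places. -/
def FibDiv (x : Fin n → K) (I : Finset (Fin n)) : Type :=
  Place (BaseField k x I) (FibField k x I) → ℝ

/-- The divisor `δ'` on the geometric generic fibre is the restriction of the divisor `δ`. -/
def IsRestr (x : Fin n → K) (I : Finset (Fin n)) (δ : Place k K → ℝ) (δ' : FibDiv k x I) : Prop :=
  IsPullFib δ δ'

open scoped Classical in
/-- There are `N` linearly independent sections of `m (K + Δ) + b A` on the geometric generic fibre,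
of dimension `|I|`; the divisor `Δ` has the multiplicities `δ'`, and `A` is the restriction of the
divisor generated by the finite set `S` of functions. -/
def FibIndep (x : Fin n → K) (I : Finset (Fin n)) (δ' : FibDiv k x I) (S : Finset K)
    (m b N : ℕ) : Prop :=
  HasIndep (BaseField k x I) (FibField k x I) I.card N
    (PairSec (BaseField k x I) (FibField k x I) I.card δ' (S.image (restrHom k x I)) m b)

/-- `κ (F, K + Δ) ≤ a` for the geometric generic fibre `F`, in terms of the growth of the number of
sections: `h⁰ (F, m (K + Δ)) ≤ C m ^ a` for all `m ≥ 1`. -/
def FibKod (x : Fin n → K) (I : Finset (Fin n)) (δ' : FibDiv k x I) (a : ℕ) : Prop :=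
  ∃ C : ℕ, ∀ m N : ℕ, 1 ≤ m → FibIndep k x I δ' {1} m 0 N → N ≤ C * m ^ a

/-- `ν (F, K + Δ) ≤ a` for the geometric generic fibre `F`: for every divisor `A` (generated by a
finite set of functions) `h⁰ (F, m (K + Δ) + A) ≤ C m ^ a` for all `m ≥ 1`. -/
def FibNum (x : Fin n → K) (I : Finset (Fin n)) (δ' : FibDiv k x I) (a : ℕ) : Prop :=
  PairNum (BaseField k x I) (FibField k x I) I.card δ' a

end

end Pool.Agent.H891.KS
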