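import Pool.Agent.H891.KS.Count
import Pool.Graph.R_seed8.Y174.V6

/-! Sections which are independent over a subfield restrict to independent sections on the
geometric generic fibre. -/

set_option autoImplicit false
set_option linter.overlappingInstances false
set_option linter.unusedSectionVars false

universe u v

open FF IntermediateField Pool.Agent.W619.PQ Pool.Agent.W619.PL Pool.Agent.W619.TW
  Pool.Agent.W603.LV Pool.Agent.W619.Y Pool.Agent.Y174

namespace Pool.Agent.H891.KS

section

variable {k : Type v} {L K Λ F : Type u} [Field k] [CharZero k] [Field L] [Field K] [Field Λ]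
  [Field F] [Algebra k L] [Algebra k K] [Algebra L K] [IsScalarTower k L K] [Algebra L Λ]
  [Algebra Λ F] [Algebra K F] [Algebra L F] [IsScalarTower L Λ F] [IsScalarTower L K F]
  [Algebra k Λ] [Algebra k F] [IsScalarTower k Λ F] [IsScalarTower k K F]
  [IsScalarTower k L Λ]

/-- independent sections on the fibre -/
theorem fib_indep (hess : Algebra.EssFiniteType k K) [Algebra.IsAlgebraic L Λ]
    (hgenF : IntermediateField.adjoin Λ (Set.range (algebraMap K F)) = ⊤)
    (hcl : ∀ x : K, IsIntegral L x → ∃ y : L, algebraMap L K y = x)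
    {d r : ℕ} (hL : Algebra.trdeg k L = d) (hn : Algebra.trdeg k K = (d + (r + 1) : ℕ))
    {t : Fin d → L} (ht : IsTranscendenceBasis k t) {x : Fin (r + 1) → K}
    (hx : IsTranscendenceBasis L x) {E : Fin (d + (r + 1)) → Derivation k K K}
    (hE : ∀ i j, E i (Fin.append (algebraMap L K ∘ t) x j) = if i = j then 1 else 0)
    {δ : Place k K → ℝ} {δ' : Place Λ F → ℝ} (hδ : IsPullFib δ δ') [DecidableEq F]
    (S : Finset K) {m b N : ℕ} (ω : Fin N → (Fin (d + (r + 1)) → Derivation k K K) → K)
    (hω : ∀ l, PairSec k K (d + (r + 1)) δ S m b (ω l)) :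
    HasIndep Λ F (r + 1) (Module.finrank L (Submodule.span L (Set.range fun l => ω l E)))
      (PairSec Λ F (r + 1) δ' (S.image (algebraMap K F)) m b) := by
  classical
  have hL0 : CharZero L := charZero_of_injective_algebraMap (algebraMap k L).injective
  have hΛ0 : CharZero Λ := charZero_of_injective_algebraMap (algebraMap k Λ).injective
  have halg : Algebra.IsAlgebraic K F := alg_KF (L := L) hgenF
  have hLK := trdeg_LK (L := L) hL hn
  have hx' := basis_F hLK hgenF hx
  obtain ⟨E', hE'⟩ := Pool.Agent.W636.PG.exists_duals Λ F (r + 1) _ hx'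
  have hdet : (Matrix.of fun a b => E' a (algebraMap K F (x b))).det = 1 := by
    have h1 : (Matrix.of fun a b => E' a (algebraMap K F (x b))) = 1 := by
      ext a b
      rw [Matrix.of_apply, Matrix.one_apply]
      exact hE' a b
    rw [h1, Matrix.det_one]
  obtain ⟨κ, a, ha, hspan, hli⟩ := exists_linearIndependent' L fun l => ω l E
  have hκ : Finite κ := Finite.of_injective a ha
  have hκ' := Fintype.ofFinite κ
  rw [← hspan, finrank_span_eq_card hli]
  let e := Fintype.equivFin κ
  refine ⟨fun i D => (Matrix.of fun a b =>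
    D a (algebraMap K F (x b))).det ^ m * algebraMap K F (ω (a (e.symm i)) E), ?_, fun i => ?_⟩
  · have h1 : LinearIndependent L fun i => ω (a (e.symm i)) E := hli.comp e.symm e.symm.injective
    have h2 := lin_disj (Λ := Λ) (F := F) hcl h1
    rw [Fintype.linearIndependent_iff] at h2 ⊢
    intro c hc
    apply h2
    have h3 := congrFun hc E'
    rw [Finset.sum_apply] at h3
    simp only [Pi.smul_apply, Pi.zero_apply, hdet, one_pow, one_mul] at h3
    exact h3
  · exact res_sec (Λ := Λ) hess hn ht hx hE hδ (hω (a (e.symm i)))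

end

section

theorem isAlg_of_hom {A B K : Type*} [CommRing A] [CommRing B] [Field K] [Algebra A K]
    [Algebra B K] (f : A →+* B) (hf : Function.Injective f)
    (hc : ∀ a, algebraMap B K (f a) = algebraMap A K a) {z : K} (hz : IsAlgebraic A z) :
    IsAlgebraic B z := by
  obtain ⟨P, hP0, hP⟩ := hz
  refine ⟨P.map f, (Polynomial.map_ne_zero_iff hf).2 hP0, ?_⟩
  rw [Polynomial.aeval_def, Polynomial.eval₂_map]
  have : (algebraMap B K).comp f = algebraMap A K := RingHom.ext hc
  rw [this]
  exact hP

variable {k K : Type} [Field k] [CharZero k] [Field K] [Algebra k K]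

/-- an element of `L` which is algebraic over the ring generated by the `t i` -/
theorem alg_down (L : IntermediateField k K) {d : ℕ} {t : Fin d → L}
    (ht : AlgebraicIndependent k t) {z : L}
    (hz : IsAlgebraic (Algebra.adjoin k (Set.range fun i => (t i : K))) (z : K)) :
    IsAlgebraic (Algebra.adjoin k (Set.range t)) z := by
  have ht' : AlgebraicIndependent k fun i => (t i : K) :=
    (L.val.algebraicIndependent_iff Subtype.val_injective).2 ht
  by_contra hcon
  have h1 : AlgebraicIndependent k (fun o : Option (Fin d) => o.elim z t) :=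
    (ht.option_iff_transcendental z).2 hcon
  have h2 : AlgebraicIndependent k (fun o : Option (Fin d) => o.elim (z : K) fun i => (t i : K)) := by
    have h3 := (L.val.algebraicIndependent_iff Subtype.val_injective).2 h1
    have h4 : (fun o : Option (Fin d) => o.elim (z : K) fun i => (t i : K)) =
        (L.val ∘ fun o : Option (Fin d) => o.elim z t) := by
      funext o
      rcases o with _ | i
      · rfl
      · rfl
    rw [h4]
    exact h3
  exact (ht'.option_iff_transcendental (z : K)).1 h2 hz

theorem perm_det {n m : ℕ} {ω : (Fin n → Derivation k K K) → K} (hω : IsPluriForm k K n m ω)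
    (e : Fin n ≃ Fin n) (E : Fin n → Derivation k K K) :
    ω (fun i => E (e i)) = ((Equiv.Perm.sign e : ℤ) : K) ^ m * ω E := by
  have h1 := hω (Equiv.Perm.permMatrix K e) E
  rw [Matrix.det_permutation] at h1
  rw [← h1]
  congr 1
  funext i
  rw [Finset.sum_eq_single (e i)]
  · simp [Equiv.Perm.permMatrix, PEquiv.toMatrix_apply, Equiv.toPEquiv_apply]
  · intro j _ hj
    simp [Equiv.Perm.permMatrix, PEquiv.toMatrix_apply, Equiv.toPEquiv_apply, hj.symm]
  · intro h
    exact (h (Finset.mem_univ _)).elim

theorem closed_of (R : Subalgebra k K) (L : IntermediateField k K)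
    (hL : ∀ x, x ∈ L ↔ IsAlgebraic R x) (hRL : R ≤ L.toSubalgebra) {z : K}
    (hz : IsIntegral L z) : z ∈ L := by
  let _ : Algebra R L := (Subalgebra.inclusion hRL).toRingHom.toAlgebra
  have _ : IsScalarTower R L K := IsScalarTower.of_algebraMap_eq fun _ => rfl
  have _ : Algebra.IsAlgebraic R L := by
    refine ⟨fun w => ?_⟩
    have h2 : IsAlgebraic R (w : K) := (hL _).1 w.2
    exact (isAlgebraic_algebraMap_iff (S := L) (A := K) Subtype.val_injective).1 h2
  exact (hL z).2 (hz.isAlgebraic.restrictScalars R)

theorem finrank_mul (L : IntermediateField k K) {c : K} (hc : c ≠ 0) {N : ℕ} (f : Fin N → K) :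
    Module.finrank L (Submodule.span L (Set.range fun l => c * f l)) =
      Module.finrank L (Submodule.span L (Set.range f)) := by
  have h3 : Submodule.span L (Set.range fun l => c * f l) =
      (Submodule.span L (Set.range f)).map (LinearMap.mulLeft L c) := by
    rw [Submodule.map_span, ← Set.range_comp]
    rfl
  rw [h3]
  exact LinearEquiv.finrank_eq (Submodule.equivMapOfInjective (LinearMap.mulLeft L c)
    (fun a b h => mul_left_cancel₀ hc h) _).symm

/-- **Independent sections on the geometric generic fibre of a coordinate projection.** -/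
theorem fib_rank (hess : Algebra.EssFiniteType k K) {n : ℕ} (hn : Algebra.trdeg k K = n)
    {y : Fin n → K} (hy : IsTranscendenceBasis k y) {E : Fin n → Derivation k K K}
    (hE : ∀ i j, E i (y j) = if i = j then 1 else 0) (I : Finset (Fin n)) (hI : I.Nonempty)
    (L : IntermediateField k K)
    (hL : ∀ x, x ∈ L ↔ IsAlgebraic (Algebra.adjoin k (y '' {i | i ∉ I})) x)
    {Λ F : Type} [Field Λ] [Field F] [Algebra L Λ] [Algebra Λ F] [Algebra K F]
    [IsScalarTower L Λ F] [Algebra k Λ] [Algebra k F] [IsScalarTower k Λ F]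
    [IsScalarTower k K F] [IsScalarTower k L Λ] [Algebra.IsAlgebraic L Λ]
    (hgenF : IntermediateField.adjoin Λ (Set.range (algebraMap K F)) = ⊤)
    {δ : Place k K → ℝ} {δ' : Place Λ F → ℝ} (hδ : IsPullFib δ δ') [DecidableEq F]
    (S : Finset K) {m b N : ℕ} (ω : Fin N → (Fin n → Derivation k K K) → K)
    (hω : ∀ l, PairSec k K n δ S m b (ω l)) :
    HasIndep Λ F I.card (Module.finrank L (Submodule.span L (Set.range fun l => ω l E)))
      (PairSec Λ F I.card δ' (S.image (algebraMap K F)) m b) := by
  classical
  obtain ⟨r, hr⟩ : ∃ r, I.card = r + 1 := ⟨I.card - 1, by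
    have := hI.card_pos
    omega⟩
  obtain ⟨d, hd⟩ : ∃ d, Iᶜ.card = d := ⟨_, rfl⟩
  have hnd : n = d + (r + 1) := by
    have h1 := Finset.card_add_card_compl I
    rw [Fintype.card_fin] at h1
    omega
  subst hnd
  rw [hr]
  let e : Fin (d + (r + 1)) ≃ Fin (d + (r + 1)) :=
    finSumFinEquiv.symm.trans (finSumEquivOfFinset (s := Iᶜ) hd (by rw [compl_compl]; exact hr))
  have he1 : ∀ i : Fin d, e (Fin.castAdd (r + 1) i) ∉ I := by
    intro i
    have h1 : e (Fin.castAdd (r + 1) i) ∈ Iᶜ := by
      simp only [e, Equiv.trans_apply, finSumFinEquiv_symm_apply_castAdd,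
        finSumEquivOfFinset_inl]
      exact Finset.orderEmbOfFin_mem _ _ _
    exact Finset.mem_compl.1 h1
  have he2 : ∀ i : Fin (r + 1), e (Fin.natAdd d i) ∈ I := by
    intro i
    have h1 : e (Fin.natAdd d i) ∈ Iᶜᶜ := by
      simp only [e, Equiv.trans_apply, finSumFinEquiv_symm_apply_natAdd,
        finSumEquivOfFinset_inr]
      exact Finset.orderEmbOfFin_mem _ _ _
    rwa [compl_compl] at h1
  have hmemJ : ∀ i ∉ I, y i ∈ L := fun i hi => (hL _).2
    (isAlgebraic_algebraMap (⟨y i, Algebra.subset_adjoin ⟨i, hi, rfl⟩⟩ :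
      Algebra.adjoin k (y '' {i | i ∉ I})))
  let t : Fin d → L := fun i => ⟨y (e (Fin.castAdd (r + 1) i)), hmemJ _ (he1 i)⟩
  let x : Fin (r + 1) → K := fun i => y (e (Fin.natAdd d i))
  have happ : (Fin.append (algebraMap L K ∘ t) x : Fin (d + (r + 1)) → K) = fun i => y (e i) := by
    funext i
    refine Fin.addCases (fun i => ?_) (fun i => ?_) i
    · rw [Fin.append_left]
      rfl
    · rw [Fin.append_right]
  have hye : IsTranscendenceBasis k fun i => y (e i) := hy.comp_equiv e
  have ht0 : AlgebraicIndependent k t := by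
    rw [← L.val.algebraicIndependent_iff Subtype.val_injective]
    exact hye.1.comp (Fin.castAdd (r + 1)) (Fin.castAdd_injective _ _)
  have hrange : (Set.range fun i => (t i : K)) = y '' {i | i ∉ I} := by
    ext z
    constructor
    · rintro ⟨i, rfl⟩
      exact ⟨_, he1 i, rfl⟩
    · rintro ⟨i, hi, rfl⟩
      obtain ⟨j, rfl⟩ := e.surjective i
      refine Fin.addCases (fun j hi => ?_) (fun j hi => ?_) j hi
      · exact ⟨j, rfl⟩
      · exact (hi (he2 j)).elim
  have ht : IsTranscendenceBasis k t := by
    rw [isTranscendenceBasis_iff_algebraicIndependent_isAlgebraic]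
    refine ⟨ht0, ⟨fun z => alg_down L ht0 ?_⟩⟩
    rw [hrange]
    exact (hL _).1 z.2
  have hLd : Algebra.trdeg k L = d := by
    have h1 := ht.cardinalMk_eq_trdeg
    rw [← h1, Cardinal.mk_fin]
  have hLK := trdeg_LK (L := L) hLd hn
  have hx : IsTranscendenceBasis L x := by
    have halg : Algebra.IsAlgebraic (Algebra.adjoin L (Set.range x)) K := by
      refine ⟨fun z => ?_⟩
      have hz : IsAlgebraic (Algebra.adjoin k (Set.range fun i => y (e i))) z :=
        hye.isAlgebraic.isAlgebraic z
      have hsub : Algebra.adjoin k (Set.range fun i => y (e i)) ≤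
          (Algebra.adjoin L (Set.range x)).restrictScalars k := by
        rw [Algebra.adjoin_le_iff]
        rintro _ ⟨i, rfl⟩
        refine Fin.addCases (fun i => ?_) (fun i => ?_) i
        · exact Subalgebra.algebraMap_mem _ (t i)
        · exact Algebra.subset_adjoin ⟨i, rfl⟩
      exact isAlg_of_hom (Subalgebra.inclusion hsub).toRingHom
        (Subalgebra.inclusion_injective hsub) (fun a => rfl) hz
    refine Algebra.IsAlgebraic.isTranscendenceBasis_of_lift_le_trdeg_of_finite L x ?_
    rw [hLK]
    simp
  have hcl : ∀ z : K, IsIntegral L z → ∃ y : L, algebraMap L K y = z := by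
    intro z hz
    have hRL : Algebra.adjoin k (y '' {i | i ∉ I}) ≤ L.toSubalgebra := by
      rw [Algebra.adjoin_le_iff]
      rintro _ ⟨i, hi, rfl⟩
      exact hmemJ i hi
    exact ⟨⟨z, closed_of _ L hL hRL hz⟩, rfl⟩
  have hE' : ∀ i j, E (e i) (Fin.append (algebraMap L K ∘ t) x j) = if i = j then 1 else 0 := by
    intro i j
    rw [happ, hE]
    simp only [EmbeddingLike.apply_eq_iff_eq]
  have h1 := fib_indep (Λ := Λ) hess hgenF hcl hLd hn ht hx (E := fun i => E (e i)) hE' hδ S ω hω
  have h2 : Module.finrank L (Submodule.span L (Set.range fun l => ω l fun i => E (e i))) =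
      Module.finrank L (Submodule.span L (Set.range fun l => ω l E)) := by
    have hc0 : ((Equiv.Perm.sign e : ℤ) : K) ^ m ≠ 0 := by
      apply pow_ne_zero
      rcases Int.units_eq_one_or (Equiv.Perm.sign e) with h | h <;> rw [h] <;> simp
    rw [← finrank_mul L hc0 fun l => ω l E]
    have h3 : (fun l => ω l fun i => E (e i)) =
        fun l => ((Equiv.Perm.sign e : ℤ) : K) ^ m * ω l E :=
      funext fun l => perm_det (hω l).1 e E
    rw [h3]
  rwa [h2] at h1

end

end Pool.Agent.H891.KS
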