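import Pool.Agent.H891.KS.Fib
import Pool.Agent.H891.KS.Defs
import Pool.Graph.R_seed8.Y173.QA.Phi

/-! The covering inequality for sections, and its consequences. -/

set_option autoImplicit false
set_option linter.overlappingInstances false
set_option linter.unusedSectionVars false

open FF IntermediateField Pool.Agent.W619.PQ Pool.Agent.W619.PL Pool.Agent.W619.TW
  Pool.Agent.W603.LV Pool.Agent.W619.Y Pool.Agent.Y174 Pool.Agent.Y173.QA

namespace Pool.Agent.H891.KS

section

variable {k K : Type} [Field k] [CharZero k] [Field K] [Algebra k K] {n : ℕ}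

/-- the algebraic closure of `k(x i, i ∉ I)` in `K` -/
noncomputable def LL (x : Fin n → K) (I : Finset (Fin n)) : IntermediateField k K :=
  (algebraicClosure (IntermediateField.adjoin k (x '' {i | i ∉ I})) K).restrictScalars k

theorem mem_LL {x : Fin n → K} {I : Finset (Fin n)} {z : K} :
    z ∈ LL (k := k) x I ↔ IsAlgebraic (Algebra.adjoin k (x '' {i | i ∉ I})) z := by
  rw [← IntermediateField.isAlgebraic_adjoin_iff]
  exact mem_algebraicClosure_iff

noncomputable instance (x : Fin n → K) (I : Finset (Fin n)) : Algebra k (BaseField k x I) :=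
  inferInstanceAs (Algebra k (Base k x I))

instance (x : Fin n → K) (I : Finset (Fin n)) :
    IsScalarTower k (BaseField k x I) (AlgebraicClosure K) :=
  inferInstanceAs (IsScalarTower k (Base k x I) (AlgebraicClosure K))

noncomputable instance (x : Fin n → K) (I : Finset (Fin n)) : Algebra k (FibField k x I) :=
  inferInstanceAs (Algebra k (Fib k x I))

instance (x : Fin n → K) (I : Finset (Fin n)) :
    IsScalarTower k (BaseField k x I) (FibField k x I) :=
  inferInstanceAs (IsScalarTower k (BaseField k x I) (Fib k x I))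

open scoped Classical in
/-- the sections over `K` and on the fibres -/
theorem sec_rank (hess : Algebra.EssFiniteType k K) (hn : Algebra.trdeg k K = n)
    {x : Fin n → K} (hx : IsTranscendenceBasis k x) {E : Fin n → Derivation k K K}
    (hE : ∀ i j, E i (x j) = if i = j then 1 else 0) (I : Finset (Fin n)) (hI : I.Nonempty)
    {δ : Place k K → ℝ} {δ' : FibDiv k x I} (hδ : IsRestr k x I δ δ') (S : Finset K) {m b N : ℕ}
    (ω : Fin N → (Fin n → Derivation k K K) → K) (hω : ∀ l, PairSec k K n δ S m b (ω l)) :
    FibIndep k x I δ' S m b (Module.finrank (LL (k := k) x I)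
      (Submodule.span (LL (k := k) x I) (Set.range fun l => ω l E))) := by
  have hmem : ∀ z : LL (k := k) x I, algebraMap K (AlgebraicClosure K) z ∈ Base k x I := by
    intro z
    have h1 : IsAlgebraic (IntermediateField.adjoin k (x '' {i | i ∉ I})) (z : K) :=
      mem_algebraicClosure_iff.1 z.2
    exact mem_algebraicClosure_iff.2 h1.algebraMap
  let _ : Algebra (LL (k := k) x I) (BaseField k x I) :=
    (((algebraMap K (AlgebraicClosure K)).comp (algebraMap (LL (k := k) x I) K)).codRestrict
      (Base k x I).toSubring hmem).toAlgebra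
  have _ : IsScalarTower (LL (k := k) x I) (BaseField k x I) (FibField k x I) :=
    IsScalarTower.of_algebraMap_eq fun z => rfl
  have _ : IsScalarTower k K (FibField k x I) := IsScalarTower.of_algebraMap_eq fun c =>
    Subtype.ext (IsScalarTower.algebraMap_apply k K (AlgebraicClosure K) c)
  have _ : IsScalarTower k (LL (k := k) x I) (BaseField k x I) := IsScalarTower.of_algebraMap_eq
    fun c => Subtype.ext (IsScalarTower.algebraMap_apply k K (AlgebraicClosure K) c)
  have _ : Algebra.IsAlgebraic (LL (k := k) x I) (BaseField k x I) := by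
    refine ⟨fun z => ?_⟩
    have h1 : IsAlgebraic (IntermediateField.adjoin k (x '' {i | i ∉ I}))
        (algebraMap (BaseField k x I) (AlgebraicClosure K) z) :=
      mem_algebraicClosure_iff.1 (show (z : Base k x I).1 ∈ _ from z.2)
    have h2 : IntermediateField.adjoin k (x '' {i | i ∉ I}) ≤ LL (k := k) x I := by
      intro w hw
      exact mem_algebraicClosure_iff.2 (isAlgebraic_algebraMap
        (⟨w, hw⟩ : IntermediateField.adjoin k (x '' {i | i ∉ I})))
    have h3 : IsAlgebraic (LL (k := k) x I)
        (algebraMap (BaseField k x I) (AlgebraicClosure K) z) :=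
      isAlg_of_hom (IntermediateField.inclusion h2).toRingHom
        (IntermediateField.inclusion h2).injective (fun a => rfl) h1
    have _ : IsScalarTower (LL (k := k) x I) (BaseField k x I) (AlgebraicClosure K) :=
      IsScalarTower.of_algebraMap_eq fun z => rfl
    exact (isAlgebraic_algebraMap_iff (S := BaseField k x I) (A := AlgebraicClosure K)
      (algebraMap (BaseField k x I) (AlgebraicClosure K)).injective).1 h3
  have hgenF : IntermediateField.adjoin (BaseField k x I)
      (Set.range (algebraMap K (FibField k x I))) = ⊤ := by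
    rw [eq_top_iff]
    intro z _
    have h1 : IntermediateField.adjoin (BaseField k x I)
        (Set.range (algebraMap K (AlgebraicClosure K))) ≤
        (IntermediateField.adjoin (BaseField k x I)
          (Set.range (algebraMap K (FibField k x I)))).map (Fib k x I).val := by
      rw [IntermediateField.adjoin_le_iff]
      rintro _ ⟨a, rfl⟩
      exact ⟨algebraMap K (FibField k x I) a, IntermediateField.subset_adjoin _ _ ⟨a, rfl⟩, rfl⟩
    obtain ⟨w, hw, hwz⟩ := h1 z.2
    have : w = z := Subtype.ext hwz
    rwa [this] at hw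
  exact fib_rank hess hn hx hE I hI (LL (k := k) x I) (fun z => mem_LL) hgenF hδ S ω hω

/-- **The covering inequality for sections.** -/
theorem cover_sec [IsAlgClosed k] (hess : Algebra.EssFiniteType k K) {x : Fin n → K}
    (hx : IsTranscendenceBasis k x) {r q : ℕ} (hq : 1 ≤ q) (I : Fin r → Finset (Fin n))
    (hI : ∀ j, (I j).Nonempty)
    (hcov : ∀ i, q ≤ (Finset.univ.filter fun j => i ∈ I j).card) {δ : Place k K → ℝ}
    {δ' : ∀ j, FibDiv k x (I j)} (hδ : ∀ j, IsRestr k x (I j) δ (δ' j))
    {S : Finset K} {m b N : ℕ} {M : Fin r → ℕ}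
    (hN : HasIndep k K n N (PairSec k K n δ S m b))
    (hM : ∀ j N', FibIndep k x (I j) (δ' j) S m b N' → N' ≤ M j) :
    N ^ q ≤ ∏ j, M j := by
  classical
  have hn : Algebra.trdeg k K = n := by
    rw [← hx.cardinalMk_eq_trdeg, Cardinal.mk_fin]
  obtain ⟨E, hE⟩ := Pool.Agent.W636.PG.exists_duals k K n _ hx
  obtain ⟨ω, hli, hω⟩ := hN
  have hexp : ∀ D : Derivation k K K, ∃ a : Fin n → K, D = ∑ i, a i • E i :=
    fun D => ⟨_, der_expand hx hE D⟩
  have hlin := lin_frame hexp hli (fun l => (hω l).1) (one_ne_zero (α := K))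
  simp only [one_mul] at hlin
  let W : Submodule k K := Submodule.span k (Set.range fun l => ω l E)
  have hW : FiniteDimensional k W := FiniteDimensional.span_of_finite k (Set.finite_range _)
  have hWN : Module.finrank k W = N := by
    rw [finrank_span_eq_card hlin, Fintype.card_fin]
  have h1 := count_prod hx W hq I (fun i => (hcov i).trans_eq (card_inst _ _))
    (fun j => LL (k := k) x (I j)) (fun j t ht => mem_LL.1 ht)
  rw [hWN] at h1
  refine h1.trans (Finset.prod_le_prod' fun j _ => ?_)
  have h2 : Submodule.span (LL (k := k) x (I j)) (W : Set K) =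
      Submodule.span (LL (k := k) x (I j)) (Set.range fun l => ω l E) := by
    apply le_antisymm
    · rw [Submodule.span_le]
      exact Submodule.span_subset_span k (LL (k := k) x (I j)) _
    · exact Submodule.span_mono Submodule.subset_span
  rw [h2]
  exact hM j _ (sec_rank hess hn hx hE (I j) (hI j) (hδ j) S ω hω)

end

section

variable {k K : Type} [Field k] [CharZero k] [Field K] [Algebra k K] {n : ℕ}

theorem pow_bound {q N C A h : ℕ} {m : ℕ} (hm : 1 ≤ m) (hq : 1 ≤ q) (hA : A ≤ q * h)
    (hN : N ^ q ≤ C * m ^ A) : N ≤ (C + 1) * m ^ h := by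
  by_contra hcon
  push Not at hcon
  have h1 : ((C + 1) * m ^ h) ^ q < N ^ q := Nat.pow_lt_pow_left hcon (by omega)
  have h2 : C * m ^ A ≤ ((C + 1) * m ^ h) ^ q := by
    rw [mul_pow, ← pow_mul, mul_comm h q]
    refine Nat.mul_le_mul ?_ (Nat.pow_le_pow_right hm hA)
    calc C ≤ C + 1 := Nat.le_succ C
      _ = (C + 1) ^ 1 := (pow_one _).symm
      _ ≤ (C + 1) ^ q := Nat.pow_le_pow_right (Nat.succ_pos C) hq
  omega

/-- monomials in the sections -/
theorem kod_growth {δ : Place k K → ℝ} {h : ℕ} (hk : PairKod k K n δ h) :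
    ∃ m : ℕ, 1 ≤ m ∧ ∀ j : ℕ, HasIndep k K n (j ^ h) (PairSec k K n δ {1} (j * m) 0) := by
  classical
  obtain ⟨m, hm, ω, hω, D, hD0, hD⟩ := hk
  refine ⟨(h + 1) * m, Nat.mul_pos (Nat.succ_pos h) hm, fun j => ?_⟩
  have hsec : ∀ l, ∀ v : Place k K, IsDivisorial v n → ∀ D : Fin n → Derivation k K K,
      (∀ l, ∀ f, v.Reg f → v.Reg (D l f)) → ω l D = 0 ∨ -(m * δ v) ≤ (v.ord (ω l D) : ℝ) := by
    intro l v hv D hD
    rcases (hω l).2 v hv D hD with h1 | ⟨s, hs, -, h1⟩
    · exact Or.inl h1
    · right
      rw [Finset.mem_singleton] at hs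
      simpa [hs] using h1
  -- products
  have hprod : ∀ (ι : Type) (s : Finset ι) (f : ι → (Fin n → Derivation k K K) → K),
      (∀ i ∈ s, ∃ l, f i = ω l) → PairSec k K n δ {1} (s.card * m) 0 (fun D => ∏ i ∈ s, f i D) := by
    intro ι s f
    induction s using Finset.induction_on with
    | empty =>
      intro _
      refine ⟨fun A D => by simp, fun v _ D _ => Or.inr ⟨1, Finset.mem_singleton_self _,
        one_ne_zero, by simp [v.ord_one]⟩⟩
    | insert a s ha ih =>
      intro hf
      have ih' := ih fun i hi => hf i (Finset.mem_insert_of_mem hi)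
      obtain ⟨l, hl⟩ := hf a (Finset.mem_insert_self a s)
      refine ⟨fun A D => ?_, fun v hv D hD => ?_⟩
      · have h1 := (hω l).1 A D
        have h2 := ih'.1 A D
        simp only [] at h2
        show ∏ i ∈ insert a s, f i (fun i => ∑ j, A i j • D j) =
          A.det ^ ((insert a s).card * m) * ∏ i ∈ insert a s, f i D
        rw [Finset.prod_insert ha, Finset.prod_insert ha, hl, h1, h2, Finset.card_insert_of_notMem ha,
          Nat.add_mul, one_mul, pow_add]
        ring
      · simp only []
        rw [Finset.prod_insert ha, hl]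
        rcases hsec l v hv D hD with h1 | h1
        · left
          rw [h1, zero_mul]
        rcases ih'.2 v hv D hD with h2 | ⟨s', hs', -, h2⟩
        · left
          have h2' : ∏ i ∈ s, f i D = 0 := h2
          rw [h2', mul_zero]
        by_cases h3 : ω l D = 0
        · left
          rw [h3, zero_mul]
        by_cases h4 : ∏ i ∈ s, f i D = 0
        · left
          rw [h4, mul_zero]
        right
        refine ⟨1, Finset.mem_singleton_self _, one_ne_zero, ?_⟩
        rw [Finset.mem_singleton] at hs'
        simp only [hs', Nat.cast_zero, zero_mul, zero_sub] at h2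
        rw [v.ord_mul h3 h4, Finset.card_insert_of_notMem ha]
        push_cast at h2 ⊢
        linarith
  -- the index of the `i`-th factor of the monomial
  let e := (finFunctionFinEquiv (m := j) (n := h)).symm
  -- monomial with exponents `a i < j`
  let mon : (Fin h → Fin j) → (Fin n → Derivation k K K) → K := fun a D =>
    (∏ i : Fin h, ω i.succ D ^ (a i : ℕ)) * ω 0 D ^ ((h + 1) * j - ∑ i, (a i : ℕ))
  have hle : ∀ a : Fin h → Fin j, ∑ i, (a i : ℕ) ≤ (h + 1) * j := by
    intro a
    calc ∑ i, (a i : ℕ) ≤ ∑ _i : Fin h, j := Finset.sum_le_sum fun i _ => (a i).2.le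
      _ = h * j := by rw [Finset.sum_const, Finset.card_univ, Fintype.card_fin, smul_eq_mul]
      _ ≤ (h + 1) * j := Nat.mul_le_mul_right _ (Nat.le_succ h)
  have hmon : ∀ a, PairSec k K n δ {1} (j * ((h + 1) * m)) 0 (mon a) := by
    intro a
    let s : Finset ((Σ _i : Fin h, ℕ) ⊕ ℕ) :=
      (Finset.univ.sigma fun i => Finset.range (a i)).disjSum
        (Finset.range ((h + 1) * j - ∑ i, (a i : ℕ)))
    have hs : s.card = (h + 1) * j := by
      rw [Finset.card_disjSum, Finset.card_sigma, Finset.card_range]
      simp only [Finset.card_range]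
      have := hle a
      omega
    have h1 := hprod _ s (fun i => Sum.elim (fun i => ω i.1.succ) (fun _ => ω 0) i) (by
      intro i _
      rcases i with i | i
      · exact ⟨_, rfl⟩
      · exact ⟨_, rfl⟩)
    have h2 : (fun D => ∏ i ∈ s, Sum.elim (fun i : (Σ _i : Fin h, ℕ) => ω i.1.succ)
        (fun _ => ω 0) i D) = mon a := by
      funext D
      rw [Finset.prod_disjSum, Finset.prod_sigma]
      simp only [Sum.elim_inl, Sum.elim_inr, Finset.prod_const, Finset.card_range]
      rfl
    rw [h2, hs] at h1
    have h3 : j * ((h + 1) * m) = (h + 1) * j * m := by ring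
    rw [h3]
    exact h1
  refine ⟨fun i => mon (e i), ?_, fun i => hmon _⟩
  have hlin : LinearIndependent k mon := by
    have h1 := (lmon_indep hD).comp (fun a : Fin h → Fin j => fun i => ((a i : ℕ) : ℤ)) (by
      intro a a' haa
      funext i
      have := congrFun haa i
      simp only [Nat.cast_inj] at this
      exact Fin.ext this)
    rw [Fintype.linearIndependent_iff] at h1 ⊢
    intro c hc
    apply h1
    have h2 := congrFun hc D
    rw [Finset.sum_apply] at h2
    have h3 : ∀ a : Fin h → Fin j, (c a • mon a) D = (c a • (lmon (fun l : Fin h =>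
        ω l.succ D / ω 0 D) (fun i => ((a i : ℕ) : ℤ)))) * ω 0 D ^ ((h + 1) * j) := by
      intro a
      rw [Pi.smul_apply, smul_mul_assoc]
      congr 1
      simp only [mon, lmon, zpow_natCast, div_pow, Finset.prod_div_distrib]
      rw [Finset.prod_pow_eq_pow_sum, div_mul_eq_mul_div, eq_div_iff (pow_ne_zero _ (hD0 0)),
        mul_assoc, ← pow_add, Nat.sub_add_cancel (hle a)]
    rw [Finset.sum_congr rfl fun a _ => h3 a, ← Finset.sum_mul] at h2
    exact (mul_eq_zero.1 h2).resolve_right (pow_ne_zero _ (hD0 0))
  exact hlin.comp e e.injective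

theorem exp_le {a A C m : ℕ} (h : ∀ j : ℕ, 1 ≤ j → j ^ a ≤ C * (j * m) ^ A) : a ≤ A := by
  by_contra hcon
  push Not at hcon
  have h1 := h (C * m ^ A + 1) (Nat.succ_pos _)
  rw [mul_pow] at h1
  have h2 : (C * m ^ A + 1) ^ (A + 1) ≤ (C * m ^ A + 1) ^ a :=
    Nat.pow_le_pow_right (Nat.succ_pos _) hcon
  have h3 : (C * m ^ A + 1) ^ (A + 1) = (C * m ^ A) * (C * m ^ A + 1) ^ A +
      (C * m ^ A + 1) ^ A := by ring
  have h4 : C * ((C * m ^ A + 1) ^ A * m ^ A) = (C * m ^ A) * (C * m ^ A + 1) ^ A := by ring
  have h5 : 0 < (C * m ^ A + 1) ^ A := pow_pos (Nat.succ_pos _) _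
  omega

end

end Pool.Agent.H891.KS
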