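import Mathlib

/-! Valuations whose values on a transcendence basis are independent, and the dimension of spaces
of functions over subfields generated by a part of the basis. -/

set_option autoImplicit false

open MvPolynomial

namespace Pool.Agent.H891.KS

section

variable {k K : Type*} [Field k] [Field K] [Algebra k K] {n : ℕ}

/-- the Laurent monomial with the exponent `α` in the `y i` -/
noncomputable def lmon (y : Fin n → K) (α : Fin n → ℤ) : K := ∏ i, y i ^ α i

theorem lmon_add {y : Fin n → K} (hy : ∀ i, y i ≠ 0) (α β : Fin n → ℤ) :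
    lmon y (α + β) = lmon y α * lmon y β := by
  unfold lmon
  rw [← Finset.prod_mul_distrib]
  exact Finset.prod_congr rfl fun i _ => zpow_add₀ (hy i) _ _

theorem lmon_zero (y : Fin n → K) : lmon y 0 = 1 := by
  unfold lmon
  simp

theorem lmon_ne {y : Fin n → K} (hy : ∀ i, y i ≠ 0) (α : Fin n → ℤ) : lmon y α ≠ 0 :=
  Finset.prod_ne_zero_iff.2 fun i _ => zpow_ne_zero _ (hy i)

theorem lmon_neg {y : Fin n → K} (hy : ∀ i, y i ≠ 0) (α : Fin n → ℤ) :
    lmon y (-α) = (lmon y α)⁻¹ := by
  apply eq_inv_of_mul_eq_one_left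
  rw [← lmon_add hy, neg_add_cancel, lmon_zero]

theorem lmon_sub {y : Fin n → K} (hy : ∀ i, y i ≠ 0) (α β : Fin n → ℤ) :
    lmon y (α - β) = lmon y α / lmon y β := by
  rw [sub_eq_add_neg, lmon_add hy, lmon_neg hy, div_eq_mul_inv]

theorem lmon_nsmul {y : Fin n → K} (hy : ∀ i, y i ≠ 0) (N : ℕ) (α : Fin n → ℤ) :
    lmon y (N • α) = lmon y α ^ N := by
  induction N with
  | zero => rw [zero_smul, lmon_zero, pow_zero]
  | succ N ih => rw [succ_nsmul, lmon_add hy, ih, pow_succ]

theorem lmon_indep {y : Fin n → K} (hy : AlgebraicIndependent k y) :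
    LinearIndependent k (lmon y) := by
  classical
  have hy0 : ∀ i, y i ≠ 0 := fun i => hy.ne_zero i
  rw [linearIndependent_iff']
  intro s g hg
  obtain ⟨β, hβ⟩ : ∃ β : Fin n → ℤ, ∀ α ∈ s, ∀ i, 0 ≤ α i + β i := by
    refine ⟨fun i => ∑ α ∈ s, |α i|, fun α hα i => ?_⟩
    have h1 : |α i| ≤ ∑ α ∈ s, |α i| :=
      Finset.single_le_sum (f := fun α : Fin n → ℤ => |α i|) (fun _ _ => abs_nonneg _) hα
    have h2 := neg_abs_le (α i)
    show 0 ≤ α i + ∑ α ∈ s, |α i|
    omega
  let e : (Fin n → ℤ) → (Fin n →₀ ℕ) := fun α =>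
    Finsupp.equivFunOnFinite.symm fun i => (α i + β i).toNat
  have he : ∀ α ∈ s, ∀ i, ((e α i : ℕ) : ℤ) = α i + β i := fun α hα i =>
    Int.toNat_of_nonneg (hβ α hα i)
  have hinj : ∀ α ∈ s, ∀ α' ∈ s, e α = e α' → α = α' := by
    intro α hα α' hα' h
    funext i
    have h1 := he α hα i
    have h2 := he α' hα' i
    rw [h] at h1
    omega
  have hp : (∑ α ∈ s, monomial (e α) (g α) : MvPolynomial (Fin n) k) = 0 := by
    apply (injective_iff_map_eq_zero (aeval (R := k) y)).1 hy
    rw [map_sum]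
    have h1 : ∀ α ∈ s, aeval (R := k) y (monomial (e α) (g α)) = (g α • lmon y α) * lmon y β := by
      intro α hα
      rw [aeval_monomial, Finsupp.prod_fintype _ _ (fun i => pow_zero _), Algebra.smul_def,
        mul_assoc, ← lmon_add hy0]
      congr 1
      unfold lmon
      refine Finset.prod_congr rfl fun i _ => ?_
      rw [← zpow_natCast, he α hα i]
      rfl
    rw [Finset.sum_congr rfl h1, ← Finset.sum_mul, hg, zero_mul]
  intro α hα
  have h2 := congrArg (coeff (e α)) hp
  rw [coeff_sum, coeff_zero] at h2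
  simp only [coeff_monomial] at h2
  rw [Finset.sum_eq_single α] at h2
  · rwa [if_pos rfl] at h2
  · intro α' hα' hne
    rw [if_neg]
    exact fun h => hne (hinj α' hα' α hα h)
  · exact fun h => (h hα).elim

/-- lexicographic positivity -/
def LPos (α : Fin n → ℤ) : Prop := ∃ i, (∀ j < i, α j = 0) ∧ 0 < α i

theorem LPos.add {α β : Fin n → ℤ} (h1 : LPos α) (h2 : LPos β) : LPos (α + β) := by
  obtain ⟨i, hi1, hi2⟩ := h1
  obtain ⟨j, hj1, hj2⟩ := h2
  rcases lt_trichotomy i j with h | h | h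
  · refine ⟨i, fun l hl => ?_, ?_⟩
    · rw [Pi.add_apply, hi1 l hl, hj1 l (hl.trans h), add_zero]
    · rw [Pi.add_apply, hj1 i h]
      omega
  · subst h
    refine ⟨i, fun l hl => ?_, ?_⟩
    · rw [Pi.add_apply, hi1 l hl, hj1 l hl, add_zero]
    · rw [Pi.add_apply]
      omega
  · refine ⟨j, fun l hl => ?_, ?_⟩
    · rw [Pi.add_apply, hi1 l (hl.trans h), hj1 l hl, add_zero]
    · rw [Pi.add_apply, hi1 j h]
      omega

theorem lpos_or {α : Fin n → ℤ} (h : α ≠ 0) : LPos α ∨ LPos (-α) := by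
  classical
  have h1 : (Finset.univ.filter fun i => α i ≠ 0).Nonempty := by
    obtain ⟨i, hi⟩ := Function.ne_iff.1 h
    exact ⟨i, Finset.mem_filter.2 ⟨Finset.mem_univ _, hi⟩⟩
  obtain ⟨i, hi, hmin⟩ := Finset.exists_min_image _ id h1
  have hi' : α i ≠ 0 := (Finset.mem_filter.1 hi).2
  have hz : ∀ j < i, α j = 0 := by
    intro j hj
    by_contra hne
    have := hmin j (Finset.mem_filter.2 ⟨Finset.mem_univ _, hne⟩)
    exact absurd hj (not_lt.2 this)
  rcases lt_or_gt_of_ne hi' with h2 | h2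
  · right
    exact ⟨i, fun j hj => by rw [Pi.neg_apply, hz j hj, neg_zero], by rw [Pi.neg_apply]; omega⟩
  · left
    exact ⟨i, hz, h2⟩

theorem not_lpos_zero : ¬ LPos (0 : Fin n → ℤ) := by
  rintro ⟨i, -, h⟩
  exact lt_irrefl _ h

/-- **Existence of the valuation.** -/
theorem exists_val {y : Fin n → K} (hy : AlgebraicIndependent k y) :
    ∃ O : ValuationSubring K, (∀ c : k, algebraMap k K c ∈ O) ∧
      ∀ α : Fin n → ℤ, α ≠ 0 → O.valuation (lmon y α) ≠ 1 := by
  classical
  have hy0 : ∀ i, y i ≠ 0 := fun i => hy.ne_zero i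
  let M : Set K := lmon y '' {α | LPos α}
  let N : Submodule k K := Submodule.span k M
  let A : Subring K := (Algebra.adjoin k M).toSubring
  have hMN : ∀ a ∈ Algebra.adjoin k M, ∀ z ∈ N, a * z ∈ N := by
    intro a ha
    induction ha using Algebra.adjoin_induction with
    | mem a ha =>
      obtain ⟨α, hα, rfl⟩ := ha
      intro z hz
      induction hz using Submodule.span_induction with
      | mem z hz =>
        obtain ⟨β, hβ, rfl⟩ := hz
        rw [← lmon_add hy0]
        exact Submodule.subset_span ⟨_, LPos.add hα hβ, rfl⟩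
      | zero => rw [mul_zero]; exact N.zero_mem
      | add a b _ _ ha hb => rw [mul_add]; exact N.add_mem ha hb
      | smul c a _ ha => rw [mul_smul_comm]; exact N.smul_mem c ha
    | algebraMap c =>
      intro z hz
      rw [← Algebra.smul_def]
      exact N.smul_mem c hz
    | add a b _ _ ha hb =>
      intro z hz
      rw [add_mul]
      exact N.add_mem (ha z hz) (hb z hz)
    | mul a b _ _ ha hb =>
      intro z hz
      rw [mul_assoc]
      exact ha _ (hb z hz)
  have hMA : ∀ z ∈ M, z ∈ A := fun z hz => Algebra.subset_adjoin hz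
  let I : Ideal A := Ideal.span {a : A | (a : K) ∈ M}
  have hI : ∀ a ∈ I, (a : K) ∈ N := by
    intro a ha
    induction ha using Submodule.span_induction with
    | mem a ha => exact Submodule.subset_span ha
    | zero => exact N.zero_mem
    | add a b _ _ ha hb => exact N.add_mem ha hb
    | smul c a _ ha => exact hMN _ c.2 _ ha
  have hI1 : I ≠ ⊤ := by
    intro h
    have h1 : (1 : K) ∈ N := hI 1 ((Ideal.eq_top_iff_one I).1 h)
    rw [← lmon_zero y] at h1
    exact (lmon_indep hy).notMem_span_image (s := {α | LPos α}) not_lpos_zero h1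
  obtain ⟨B, hB1, hB2⟩ := Ideal.image_subset_nonunits_valuationSubring I hI1
  have hpos : ∀ α : Fin n → ℤ, LPos α → B.valuation (lmon y α) < 1 := by
    intro α hα
    have h1 : lmon y α ∈ M := ⟨α, hα, rfl⟩
    exact hB2 ⟨⟨lmon y α, hMA _ h1⟩, Ideal.subset_span h1, rfl⟩
  refine ⟨B, fun c => hB1 (Subalgebra.algebraMap_mem _ c), fun α hα => ?_⟩
  rcases lpos_or hα with h | h
  · exact (hpos α h).ne
  · have h1 := hpos _ h
    rw [lmon_neg hy0, map_inv₀] at h1
    intro h2
    rw [h2, inv_one] at h1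
    exact lt_irrefl _ h1

end

section

variable {K Γ : Type*} [Field K] [LinearOrderedCommGroupWithZero Γ] (v : Valuation K Γ)

/-- A vanishing sum has two terms with the same value. -/
theorem two_equal {ι : Type*} {s : Finset ι} (hs : s.Nonempty) {a : ι → K}
    (ha : ∀ i ∈ s, a i ≠ 0) (h0 : ∑ i ∈ s, a i = 0) :
    ∃ i ∈ s, ∃ j ∈ s, i ≠ j ∧ v (a i) = v (a j) := by
  classical
  by_contra hcon
  push Not at hcon
  obtain ⟨i, hi, hmax⟩ := s.exists_max_image (fun i => v (a i)) hs
  have h1 : v (∑ j ∈ s.erase i, a j) < v (a i) := by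
    refine v.map_sum_lt (v.ne_zero_iff.2 (ha i hi)) fun j hj => ?_
    have hj' := Finset.mem_erase.1 hj
    exact lt_of_le_of_ne (hmax j hj'.2) fun h => hcon j hj'.2 i hi hj'.1 h
  have h2 : ∑ j ∈ s.erase i, a j = - a i := by
    rw [← Finset.add_sum_erase s a hi] at h0
    exact eq_neg_of_add_eq_zero_right h0
  rw [h2, v.map_neg] at h1
  exact lt_irrefl _ h1

/-- A sum of terms with different values has the value of one of the terms. -/
theorem sum_val {ι : Type*} {s : Finset ι} (hs : s.Nonempty) {a : ι → K}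
    (ha : ∀ i ∈ s, a i ≠ 0) (hd : ∀ i ∈ s, ∀ j ∈ s, v (a i) = v (a j) → i = j) :
    ∃ i ∈ s, v (∑ j ∈ s, a j) = v (a i) := by
  classical
  obtain ⟨i, hi, hmax⟩ := s.exists_max_image (fun i => v (a i)) hs
  refine ⟨i, hi, v.map_sum_eq_of_lt hi fun j hj => ?_⟩
  have hj' := Finset.mem_sdiff.1 hj
  refine lt_of_le_of_ne (hmax j hj'.1) fun h => hj'.2 ?_
  rw [hd j hj'.1 i hi h]
  exact Finset.mem_singleton_self _

end

end Pool.Agent.H891.KS
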