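import Pool.Agent.H891.KS.Val

/-! Values of algebraic elements, one-dimensional leaves, bases with distinct values. -/

set_option autoImplicit false

open MvPolynomial

namespace Pool.Agent.H891.KS

section

variable {k K Γ : Type*} [Field k] [Field K] [Algebra k K] [LinearOrderedCommGroupWithZero Γ]
  {n : ℕ} {v : Valuation K Γ} {y : Fin n → K}

theorem lmon_inj (hy0 : ∀ i, y i ≠ 0) (hv : ∀ α : Fin n → ℤ, α ≠ 0 → v (lmon y α) ≠ 1)
    {α β : Fin n → ℤ} (h : v (lmon y α) = v (lmon y β)) : α = β := by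
  by_contra hne
  refine hv (α - β) (sub_ne_zero.2 hne) ?_
  rw [lmon_sub hy0, map_div₀, h, div_self]
  exact v.ne_zero_iff.2 (lmon_ne hy0 β)

theorem aeval_eq_sum (y : Fin n → K) (p : MvPolynomial (Fin n) k) :
    aeval y p = ∑ d ∈ p.support, algebraMap k K (p.coeff d) * lmon y (fun i => (d i : ℤ)) := by
  rw [aeval_def, eval₂_eq']
  refine Finset.sum_congr rfl fun d _ => ?_
  congr 1
  unfold lmon
  exact Finset.prod_congr rfl fun i _ => (zpow_natCast _ _).symm

theorem cast_inj {d d' : Fin n →₀ ℕ} (h : (fun i => (d i : ℤ)) = fun i => (d' i : ℤ)) :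
    d = d' := by
  ext i
  exact_mod_cast congrFun h i

/-- the value of a polynomial is the value of a monomial -/
theorem poly_val (hy : AlgebraicIndependent k y)
    (hk : ∀ c : k, c ≠ 0 → v (algebraMap k K c) = 1)
    (hv : ∀ α : Fin n → ℤ, α ≠ 0 → v (lmon y α) ≠ 1) {J : Set (Fin n)} {r : K}
    (hr : r ∈ Algebra.adjoin k (y '' J)) (hr0 : r ≠ 0) :
    ∃ β : Fin n → ℤ, (∀ i ∉ J, β i = 0) ∧ v r = v (lmon y β) := by
  classical
  have hy0 : ∀ i, y i ≠ 0 := fun i => hy.ne_zero i
  have h1 : Algebra.adjoin k (y '' J) = (supported k J).map (aeval y) := by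
    rw [supported_eq_adjoin_X, AlgHom.map_adjoin, ← Set.image_comp]
    congr 1
    ext z
    simp
  rw [h1] at hr
  obtain ⟨p, hp, rfl⟩ := hr
  have hp0 : p ≠ 0 := by
    rintro rfl
    exact hr0 (map_zero _)
  change aeval y p ≠ 0 at hr0
  obtain ⟨d, hd, hval⟩ := sum_val v (s := p.support)
    (Finset.nonempty_iff_ne_empty.2 fun h => hp0 (support_eq_empty.1 h))
    (a := fun d => algebraMap k K (p.coeff d) * lmon y (fun i => (d i : ℤ)))
    (fun d hd => mul_ne_zero ((map_ne_zero _).2 (mem_support_iff.1 hd)) (lmon_ne hy0 _))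
    (fun d hd d' hd' h => by
      simp only [map_mul] at h
      rw [hk _ (mem_support_iff.1 hd), hk _ (mem_support_iff.1 hd'), one_mul, one_mul] at h
      exact cast_inj (lmon_inj hy0 hv h))
  refine ⟨fun i => (d i : ℤ), fun i hi => ?_, ?_⟩
  · by_contra hne
    apply hi
    have hp' := mem_supported.1 (show p ∈ supported k J from hp)
    apply hp'
    rw [Finset.mem_coe, mem_vars_iff_mem_support]
    refine ⟨d, hd, ?_⟩
    rw [Finsupp.mem_support_iff]
    intro h
    apply hne
    show ((d i : ℕ) : ℤ) = 0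
    rw [h, Nat.cast_zero]
  · change v (aeval y p) = _
    rw [aeval_eq_sum, hval, map_mul, hk _ (mem_support_iff.1 hd), one_mul]

/-- the value of an element which is algebraic over the field generated by the `y i`, `i ∈ J` -/
theorem alg_val (hy : AlgebraicIndependent k y)
    (hk : ∀ c : k, c ≠ 0 → v (algebraMap k K c) = 1)
    (hv : ∀ α : Fin n → ℤ, α ≠ 0 → v (lmon y α) ≠ 1) {J : Set (Fin n)} {z : K}
    (hz : IsAlgebraic (Algebra.adjoin k (y '' J)) z) (hz0 : z ≠ 0) :
    ∃ N : ℕ, 0 < N ∧ ∃ β : Fin n → ℤ, (∀ i ∉ J, β i = 0) ∧ v z ^ N = v (lmon y β) := by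
  classical
  have hy0 : ∀ i, y i ≠ 0 := fun i => hy.ne_zero i
  obtain ⟨P, hP0, hP⟩ := hz
  rw [Polynomial.aeval_eq_sum_range' (Nat.lt_succ_self _)] at hP
  have hvz : v z ≠ 0 := v.ne_zero_iff.2 hz0
  let s := (Finset.range (P.natDegree.succ)).filter fun i => P.coeff i ≠ 0
  have hs : s.Nonempty := ⟨P.natDegree, Finset.mem_filter.2 ⟨Finset.mem_range.2
    (Nat.lt_succ_self _), by
      rw [Polynomial.coeff_natDegree]
      exact Polynomial.leadingCoeff_ne_zero.2 hP0⟩⟩
  have hsum : ∑ i ∈ s, (P.coeff i : K) * z ^ i = 0 := by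
    rw [← hP]
    rw [Finset.sum_filter_of_ne]
    · exact Finset.sum_congr rfl fun i _ => by rw [Algebra.smul_def]; rfl
    · intro i _ h h0
      apply h
      rw [h0]
      simp
  have hterm : ∀ i ∈ s, (P.coeff i : K) * z ^ i ≠ 0 := fun i hi =>
    mul_ne_zero (fun h => (Finset.mem_filter.1 hi).2 (Subtype.ext h)) (pow_ne_zero _ hz0)
  obtain ⟨i, hi, j, hj, hij, hval⟩ := two_equal v hs hterm hsum
  have hcne : ∀ i ∈ s, (P.coeff i : K) ≠ 0 := fun i hi h =>
    (Finset.mem_filter.1 hi).2 (Subtype.ext h)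
  have key : ∀ i j, i ∈ s → j ∈ s → i < j →
      v ((P.coeff i : K) * z ^ i) = v ((P.coeff j : K) * z ^ j) →
      ∃ N : ℕ, 0 < N ∧ ∃ β : Fin n → ℤ, (∀ i ∉ J, β i = 0) ∧ v z ^ N = v (lmon y β) := by
    intro i j hi hj hij h
    obtain ⟨β, hβ, hβv⟩ := poly_val hy hk hv (P.coeff i).2 (hcne i hi)
    obtain ⟨β', hβ', hβv'⟩ := poly_val hy hk hv (P.coeff j).2 (hcne j hj)
    refine ⟨j - i, Nat.sub_pos_of_lt hij, β - β', fun l hl => ?_, ?_⟩
    · rw [Pi.sub_apply, hβ l hl, hβ' l hl, sub_zero]
    · rw [lmon_sub hy0, map_div₀, ← hβv, ← hβv']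
      rw [map_mul, map_mul, map_pow, map_pow] at h
      have h1 : v z ^ j = v z ^ (j - i) * v z ^ i := by
        rw [← pow_add, Nat.sub_add_cancel hij.le]
      rw [h1, ← mul_assoc] at h
      have h2 := mul_right_cancel₀ (pow_ne_zero _ hvz) h
      rw [eq_div_iff (v.ne_zero_iff.2 (hcne j hj)), h2, mul_comm]
  rcases lt_or_gt_of_ne hij with h | h
  · exact key i j hi hj h hval
  · exact key j i hj hi h hval.symm

/-- **One-dimensional leaves.** -/
theorem residue [IsAlgClosed k] (hy : IsTranscendenceBasis k y)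
    (hk : ∀ c : k, c ≠ 0 → v (algebraMap k K c) = 1)
    (hv : ∀ α : Fin n → ℤ, α ≠ 0 → v (lmon y α) ≠ 1) {z : K} (hz : v z = 1) :
    ∃ c : k, v (z - algebraMap k K c) < 1 := by
  classical
  have hy0 : ∀ i, y i ≠ 0 := fun i => hy.1.ne_zero i
  by_contra hcon
  push Not at hcon
  have hone : ∀ c : k, v (z - algebraMap k K c) = 1 := by
    intro c
    refine le_antisymm ?_ (hcon c)
    refine (v.map_sub _ _).trans (max_le hz.le ?_)
    rcases eq_or_ne c 0 with rfl | hc
    · rw [map_zero, map_zero]; exact zero_le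
    · exact (hk c hc).le
  have hpoly : ∀ p : Polynomial k, p ≠ 0 → v (Polynomial.aeval z p) = 1 := by
    intro p hp
    have h1 : p = Polynomial.C p.leadingCoeff * (p.roots.map fun a =>
        Polynomial.X - Polynomial.C a).prod := (IsAlgClosed.splits p).eq_prod_roots
    rw [h1, map_mul, Polynomial.aeval_C, map_mul, hk _ (Polynomial.leadingCoeff_ne_zero.2 hp),
      one_mul, map_multiset_prod, map_multiset_prod, Multiset.map_map, Multiset.map_map]
    refine Multiset.prod_eq_one fun x hx => ?_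
    obtain ⟨a, -, rfl⟩ := Multiset.mem_map.1 hx
    simp only [Function.comp_apply, map_sub, Polynomial.aeval_X, Polynomial.aeval_C]
    exact hone a
  have halg : IsAlgebraic (Algebra.adjoin k (Set.range y)) z := hy.isAlgebraic.isAlgebraic z
  obtain ⟨P, hP0, hP⟩ := halg
  have hex : ∀ i, ∃ f : MvPolynomial (Fin n) k, aeval y f = (P.coeff i : K) := by
    intro i
    have h1 : ∀ z ∈ Algebra.adjoin k (Set.range y), ∃ f : MvPolynomial (Fin n) k,
        aeval y f = z := by
      intro z hz
      rw [Algebra.adjoin_range_eq_range_aeval] at hz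
      exact hz
    exact h1 _ (P.coeff i).2
  choose f hf using hex
  let D : Finset (Fin n →₀ ℕ) := (Finset.range (P.natDegree.succ)).biUnion fun i => (f i).support
  let p : (Fin n →₀ ℕ) → Polynomial k := fun d =>
    ∑ i ∈ Finset.range (P.natDegree.succ), Polynomial.C ((f i).coeff d) * Polynomial.X ^ i
  have hpc : ∀ d i, i < P.natDegree.succ → (p d).coeff i = (f i).coeff d := by
    intro d i hi
    simp only [p, Polynomial.finsetSum_coeff, Polynomial.coeff_C_mul, Polynomial.coeff_X_pow,
      mul_ite, mul_one, mul_zero]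
    rw [Finset.sum_eq_single i]
    · rw [if_pos rfl]
    · intro j _ hne
      rw [if_neg hne.symm]
    · intro h
      exact (h (Finset.mem_range.2 hi)).elim
  have hrel : ∑ d ∈ D, Polynomial.aeval z (p d) * lmon y (fun i => (d i : ℤ)) = 0 := by
    have h2 : ∀ i ∈ Finset.range (P.natDegree.succ), (P.coeff i : K) =
        ∑ d ∈ D, algebraMap k K ((f i).coeff d) * lmon y (fun i => (d i : ℤ)) := by
      intro i hi
      rw [← hf i, aeval_eq_sum]
      refine Finset.sum_subset (fun d hd => Finset.mem_biUnion.2 ⟨i, hi, hd⟩) fun d _ hd => ?_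
      rw [notMem_support_iff.1 hd, map_zero, zero_mul]
    rw [Polynomial.aeval_eq_sum_range' (Nat.lt_succ_self _)] at hP
    rw [← hP]
    have h3 : ∀ i ∈ Finset.range (P.natDegree.succ), P.coeff i • z ^ i =
        ∑ d ∈ D, algebraMap k K ((f i).coeff d) * lmon y (fun i => (d i : ℤ)) * z ^ i := by
      intro i hi
      rw [← Finset.sum_mul, ← h2 i hi]
      rfl
    rw [Finset.sum_congr rfl h3, Finset.sum_comm]
    refine Finset.sum_congr rfl fun d _ => ?_
    simp only [p, map_sum, map_mul, Polynomial.aeval_C, map_pow, Polynomial.aeval_X]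
    rw [Finset.sum_mul]
    exact Finset.sum_congr rfl fun i _ => by ring
  let D' := D.filter fun d => p d ≠ 0
  have hD' : D'.Nonempty := by
    have h1 : f P.natDegree ≠ 0 := by
      intro h
      have h2 := hf P.natDegree
      rw [h, map_zero, Polynomial.coeff_natDegree] at h2
      exact Polynomial.leadingCoeff_ne_zero.2 hP0 (Subtype.ext h2.symm)
    obtain ⟨d, hd⟩ := Finset.nonempty_iff_ne_empty.2 fun h => h1 (support_eq_empty.1 h)
    refine ⟨d, Finset.mem_filter.2 ⟨Finset.mem_biUnion.2 ⟨P.natDegree, Finset.mem_range.2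
      (Nat.lt_succ_self _), hd⟩, fun h => ?_⟩⟩
    have h2 := hpc d P.natDegree (Nat.lt_succ_self _)
    rw [h, Polynomial.coeff_zero] at h2
    exact mem_support_iff.1 hd h2.symm
  have hrel' : ∑ d ∈ D', Polynomial.aeval z (p d) * lmon y (fun i => (d i : ℤ)) = 0 := by
    rw [← hrel, Finset.sum_filter_of_ne]
    intro d _ h h0
    apply h
    rw [h0, map_zero, zero_mul]
  have hne : ∀ d ∈ D', Polynomial.aeval z (p d) * lmon y (fun i => (d i : ℤ)) ≠ 0 := by
    intro d hd
    refine mul_ne_zero ?_ (lmon_ne hy0 _)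
    have h1 := hpoly (p d) (Finset.mem_filter.1 hd).2
    intro h
    rw [h, map_zero] at h1
    exact zero_ne_one h1
  obtain ⟨d, hd, d', hd', hdd, hval⟩ := two_equal v hD' hne hrel'
  rw [map_mul, map_mul, hpoly _ (Finset.mem_filter.1 hd).2, hpoly _ (Finset.mem_filter.1 hd').2,
    one_mul, one_mul] at hval
  exact hdd (cast_inj (lmon_inj hy0 hv hval))

theorem leaf [IsAlgClosed k] (hy : IsTranscendenceBasis k y)
    (hk : ∀ c : k, c ≠ 0 → v (algebraMap k K c) = 1)
    (hv : ∀ α : Fin n → ℤ, α ≠ 0 → v (lmon y α) ≠ 1) {w w' : K} (hw' : w' ≠ 0)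
    (h : v w = v w') : ∃ c : k, v (w - c • w') < v w := by
  have hvw' : v w' ≠ 0 := v.ne_zero_iff.2 hw'
  obtain ⟨c, hc⟩ := residue hy hk hv (z := w / w') (by rw [map_div₀, h, div_self hvw'])
  refine ⟨c, ?_⟩
  have h1 : w - c • w' = (w / w' - algebraMap k K c) * w' := by
    rw [sub_mul, div_mul_cancel₀ _ hw', Algebra.smul_def]
  rw [h1, map_mul, h]
  calc v (w / w' - algebraMap k K c) * v w' < 1 * v w' :=
        mul_lt_mul_of_pos_right hc (zero_lt_iff.2 hvw')
    _ = v w' := one_mul _

/-- **A family with distinct values.** -/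
theorem exists_distinct [IsAlgClosed k] (hy : IsTranscendenceBasis k y)
    (hk : ∀ c : k, c ≠ 0 → v (algebraMap k K c) = 1)
    (hv : ∀ α : Fin n → ℤ, α ≠ 0 → v (lmon y α) ≠ 1) (W : Submodule k K)
    [FiniteDimensional k W] :
    ∀ N : ℕ, N ≤ Module.finrank k W → ∃ w : Fin N → K, (∀ l, w l ∈ W) ∧ (∀ l, w l ≠ 0) ∧
      Function.Injective fun l => v (w l) := by
  classical
  intro N
  induction N with
  | zero => exact fun _ => ⟨Fin.elim0, fun l => l.elim0, fun l => l.elim0, fun l => l.elim0⟩
  | succ N ih =>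
    intro hN
    obtain ⟨w, hwW, hw0, hinj⟩ := ih (Nat.le_of_succ_le hN)
    have hspan : Submodule.span k (Set.range w) ≤ W :=
      Submodule.span_le.2 (Set.range_subset_iff.2 hwW)
    have hex : ∃ x ∈ W, x ∉ Submodule.span k (Set.range w) := by
      by_contra hcon
      push Not at hcon
      have h1 : W = Submodule.span k (Set.range w) := le_antisymm hcon hspan
      have h2 : Module.finrank k W ≤ N := by
        rw [h1]
        exact (finrank_range_le_card w).trans (by rw [Fintype.card_fin])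
      omega
    have key : ∀ m : ℕ, ∀ x ∈ W, x ∉ Submodule.span k (Set.range w) →
        (Finset.univ.filter fun l => v (w l) ≤ v x).card ≤ m →
        ∃ x ∈ W, x ≠ 0 ∧ ∀ l, v (w l) ≠ v x := by
      intro m
      induction m with
      | zero =>
        intro x hx hxs hm
        refine ⟨x, hx, fun h => hxs (h ▸ Submodule.zero_mem _), fun l hl => ?_⟩
        have h1 : l ∈ (Finset.univ.filter fun l => v (w l) ≤ v x) :=
          Finset.mem_filter.2 ⟨Finset.mem_univ _, hl.le⟩
        rw [Finset.card_eq_zero.1 (Nat.le_zero.1 hm)] at h1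
        exact absurd h1 (Finset.notMem_empty _)
      | succ m ihm =>
        intro x hx hxs hm
        by_cases hd : ∀ l, v (w l) ≠ v x
        · exact ⟨x, hx, fun h => hxs (h ▸ Submodule.zero_mem _), hd⟩
        push Not at hd
        obtain ⟨l, hl⟩ := hd
        obtain ⟨c, hc⟩ := leaf hy hk hv (w := x) (w' := w l) (hw0 l) hl.symm
        refine ihm (x - c • w l) (W.sub_mem hx (W.smul_mem c (hwW l))) (fun h => hxs ?_) ?_
        · have h1 := Submodule.add_mem _ h
            (Submodule.smul_mem _ c (Submodule.subset_span (Set.mem_range_self l)))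
          rwa [sub_add_cancel] at h1
        · refine Nat.le_of_lt_succ (lt_of_lt_of_le (Finset.card_lt_card ?_) hm)
          refine Finset.ssubset_iff_subset_ne.2 ⟨fun i hi => ?_, fun h => ?_⟩
          · exact Finset.mem_filter.2 ⟨Finset.mem_univ _, ((Finset.mem_filter.1 hi).2).trans
              hc.le⟩
          · have h1 : l ∈ (Finset.univ.filter fun l => v (w l) ≤ v x) :=
              Finset.mem_filter.2 ⟨Finset.mem_univ _, hl.le⟩
            rw [← h] at h1
            have h2 := (Finset.mem_filter.1 h1).2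
            rw [hl] at h2
            exact absurd hc (not_lt.2 h2)
    obtain ⟨x0, hx0, hx0s⟩ := hex
    obtain ⟨x, hx, hxne, hxd⟩ := key _ x0 hx0 hx0s le_rfl
    refine ⟨Fin.cons x w, fun l => ?_, fun l => ?_, ?_⟩
    · refine Fin.cases ?_ (fun l => ?_) l
      · exact hx
      · exact hwW l
    · refine Fin.cases ?_ (fun l => ?_) l
      · exact hxne
      · exact hw0 l
    · intro a b
      refine Fin.cases ?_ (fun a => ?_) a
      · refine Fin.cases (fun _ => rfl) (fun b h => ?_) b
        simp only [Fin.cons_zero, Fin.cons_succ] at h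
        exact (hxd b h.symm).elim
      · refine Fin.cases (fun h => ?_) (fun b h => ?_) b
        · simp only [Fin.cons_zero, Fin.cons_succ] at h
          exact (hxd a h).elim
        · simp only [Fin.cons_succ] at h
          rw [hinj h]

end

end Pool.Agent.H891.KS
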